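import Mathlib

set_option autoImplicit false

/-!
# Optimal edge-colourings of `K_n` without rainbow cycles of length `n - 2`
-/

namespace Pool.Agent.Y899.Rainbow

open Finset

/-- proper edge-colouring of the complete graph on `Fin n` with `m` colours: two distinct edges
`xy`, `xz` sharing the vertex `x` get distinct colours (values on loops are irrelevant) -/
def Proper {n m : ℕ} (c : Sym2 (Fin n) → Fin m) : Prop :=
  ∀ x y z : Fin n, x ≠ y → x ≠ z → y ≠ z → c s(x, y) ≠ c s(x, z)

/-- optimal: proper with the minimum possible number of colours -/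
def Optimal {n m : ℕ} (c : Sym2 (Fin n) → Fin m) : Prop :=
  Proper c ∧ ∀ (m' : ℕ) (c' : Sym2 (Fin n) → Fin m'), Proper c' → m ≤ m'

/-- there is a cycle of length `l` in `K_n` whose edges have pairwise distinct colours -/
def HasRainbowCycle {n m : ℕ} (c : Sym2 (Fin n) → Fin m) (l : ℕ) : Prop :=
  ∃ (v : Fin n) (p : (⊤ : SimpleGraph (Fin n)).Walk v v),
    p.IsCycle ∧ p.length = l ∧ (p.edges.map c).Nodup

/-- the elementary abelian group -/
abbrev G (k : ℕ) : Type := Fin k → ZMod 2

theorem add_self' {k : ℕ} (x : G k) : x + x = 0 := by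
  funext i
  exact CharTwo.add_self_eq_zero (x i)

theorem add_eq_zero_iff' {k : ℕ} (x y : G k) : x + y = 0 ↔ x = y := by
  constructor
  · intro h
    have : x + y + y = y := by rw [h, zero_add]
    rwa [add_assoc, add_self', add_zero] at this
  · rintro rfl
    exact add_self' x

theorem sum_univ_eq_zero {k : ℕ} (hk : 2 ≤ k) : ∑ x : G k, x = 0 := by
  funext i
  rw [Finset.sum_apply]
  obtain ⟨j, hj⟩ : ∃ j : Fin k, j ≠ i := by
    by_cases h : i = ⟨0, by omega⟩
    · exact ⟨⟨1, by omega⟩, by rw [h]; intro h'; simpa using congrArg Fin.val h'⟩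
    · exact ⟨⟨0, by omega⟩, fun h' => h h'.symm⟩
  refine Finset.sum_involution (fun x _ => x + Pi.single j 1) ?_ ?_ ?_ ?_
  · intro x _
    rw [Pi.add_apply, Pi.single_apply, if_neg (Ne.symm hj), add_zero]
    exact CharTwo.add_self_eq_zero (x i)
  · intro x _ _ h
    have h1 := congrFun h j
    rw [Pi.add_apply, Pi.single_eq_same] at h1
    have : (1 : ZMod 2) = 0 := by
      have h2 : x j + 1 - x j = x j - x j := by rw [h1]
      simp at h2
    exact one_ne_zero this
  · intro x _
    exact mem_univ _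
  · intro x _
    rw [add_assoc, add_self', add_zero]

/-- a set of nonzero elements with sum zero misses neither exactly one nor exactly two nonzero
elements -/
theorem card_ne {k : ℕ} (hk : 2 ≤ k) (S : Finset (G k)) (h0 : (0 : G k) ∉ S)
    (hS : ∑ x ∈ S, x = 0) : S.card ≠ 2 ^ k - 2 ∧ S.card ≠ 2 ^ k - 3 := by
  have hpow : 4 ≤ 2 ^ k := by
    calc 4 = 2 ^ 2 := by norm_num
      _ ≤ 2 ^ k := Nat.pow_le_pow_right (by norm_num) hk
  have hG : Fintype.card (G k) = 2 ^ k := by
    rw [Fintype.card_fun, ZMod.card, Fintype.card_fin]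
  set T := (univ \ insert 0 S : Finset (G k)) with hT
  have hTsum : ∑ x ∈ T, x = 0 := by
    have h1 := Finset.sum_sdiff (s₁ := insert 0 S) (s₂ := univ) (f := fun x : G k => x)
      (subset_univ _)
    rw [sum_univ_eq_zero hk, sum_insert h0, hS, add_zero, add_zero] at h1
    exact h1
  have hTcard : T.card = 2 ^ k - (S.card + 1) := by
    rw [hT, card_sdiff_of_subset (subset_univ _), card_univ, hG, card_insert_of_notMem h0]
  have hT0 : ∀ x ∈ T, x ≠ 0 := by
    intro x hx h
    rw [hT, mem_sdiff] at hx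
    exact hx.2 (by rw [h]; exact mem_insert_self _ _)
  constructor
  · intro h
    have h1 : T.card = 1 := by omega
    obtain ⟨a, ha⟩ := card_eq_one.1 h1
    rw [ha, sum_singleton] at hTsum
    exact hT0 a (by rw [ha]; exact mem_singleton_self _) hTsum
  · intro h
    have h1 : T.card = 2 := by omega
    obtain ⟨a, b, hab, ha⟩ := card_eq_two.1 h1
    rw [ha, sum_pair hab] at hTsum
    exact hab ((add_eq_zero_iff' a b).1 hTsum)

section Walk

variable {n k : ℕ} (f : Fin n → G k)

/-- the colour of a pair as a group element -/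
def col : Sym2 (Fin n) → G k :=
  Sym2.lift ⟨fun x y => f x + f y, fun _ _ => add_comm _ _⟩

theorem col_mk (x y : Fin n) : col f s(x, y) = f x + f y := rfl

theorem sum_walk {u v : Fin n} (p : (⊤ : SimpleGraph (Fin n)).Walk u v) :
    (p.edges.map (col f)).sum = f u + f v := by
  induction p with
  | nil => simp [add_self']
  | @cons a b c h p ih =>
    rw [SimpleGraph.Walk.edges_cons, List.map_cons, List.sum_cons, ih, col_mk]
    have : f a + f b + (f b + f c) = f a + f c + (f b + f b) := by abel
    rw [this, add_self', add_zero]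

theorem col_ne (hf : Function.Injective f) (e : Sym2 (Fin n)) (he : ¬ e.IsDiag) : col f e ≠ 0 := by
  induction e with
  | h x y =>
    rw [Sym2.mk_isDiag_iff] at he
    rw [col_mk]
    intro h
    exact he (hf ((add_eq_zero_iff' _ _).1 h))

/-- the number of nonzero elements -/
theorem card_nz : Fintype.card {g : G k // g ≠ 0} = 2 ^ k - 1 := by
  rw [Fintype.card_subtype_compl, Fintype.card_subtype_eq, Fintype.card_fun, ZMod.card,
    Fintype.card_fin]

/-- numbering of the nonzero elements -/
noncomputable def num (hk : 2 ≤ k) (g : G k) : Fin (2 ^ k - 1) :=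
  if h : g ≠ 0 then Fintype.equivFinOfCardEq card_nz ⟨g, h⟩ else
    ⟨0, by
      have : 2 ^ 2 ≤ 2 ^ k := Nat.pow_le_pow_right (by norm_num) hk
      omega⟩

theorem num_inj (hk : 2 ≤ k) {g g' : G k} (h : g ≠ 0) (h' : g' ≠ 0) (he : num hk g = num hk g') :
    g = g' := by
  unfold num at he
  rw [dif_pos h, dif_pos h'] at he
  have := (Fintype.equivFinOfCardEq card_nz).injective he
  exact congrArg Subtype.val this

/-- the colouring -/
noncomputable def colF (hk : 2 ≤ k) (e : Sym2 (Fin n)) : Fin (2 ^ k - 1) := num hk (col f e)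

theorem proper_colF (hk : 2 ≤ k) (hf : Function.Injective f) : Proper (colF f hk) := by
  intro x y z hxy hxz hyz h
  have h1 := num_inj hk (col_ne f hf s(x, y) (by rwa [Sym2.mk_isDiag_iff]))
    (col_ne f hf s(x, z) (by rwa [Sym2.mk_isDiag_iff])) h
  rw [col_mk, col_mk] at h1
  exact hyz (hf (add_left_cancel h1))

theorem no_rainbow (hk : 2 ≤ k) (hf : Function.Injective f) (l : ℕ)
    (hl : l = 2 ^ k - 2 ∨ l = 2 ^ k - 3) : ¬ HasRainbowCycle (colF f hk) l := by
  rintro ⟨v, p, -, hlen, hnd⟩
  have h1 : (p.edges.map (col f)).Nodup := by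
    have : p.edges.map (colF f hk) = (p.edges.map (col f)).map (num hk) := by
      rw [List.map_map]
      rfl
    rw [this] at hnd
    exact List.Nodup.of_map _ hnd
  have h2 : (p.edges.map (col f)).sum = 0 := by rw [sum_walk, add_self']
  have h3 : ∀ g ∈ p.edges.map (col f), g ≠ 0 := by
    intro g hg
    rw [List.mem_map] at hg
    obtain ⟨e, he, rfl⟩ := hg
    apply col_ne f hf
    have := p.edges_subset_edgeSet he
    exact SimpleGraph.not_isDiag_of_mem_edgeSet _ this
  have h4 := card_ne hk (p.edges.map (col f)).toFinset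
    (by rw [List.mem_toFinset]; exact fun h => h3 0 h rfl)
    (by rw [List.sum_toFinset _ h1, List.map_id']; exact h2)
  rw [List.toFinset_card_of_nodup h1, List.length_map, SimpleGraph.Walk.length_edges, hlen] at h4
  rcases hl with h | h
  · exact h4.1 h
  · exact h4.2 h

end Walk

/-- lower bound for the number of colours -/
theorem le_of_proper {n m : ℕ} (c : Sym2 (Fin n) → Fin m) (hc : Proper c) : n - 1 ≤ m := by
  rcases Nat.eq_zero_or_pos n with h | h
  · omega
  have h1 : (univ.erase (⟨0, h⟩ : Fin n)).card ≤ (univ : Finset (Fin m)).card := by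
    refine card_le_card_of_injOn (fun y => c s(⟨0, h⟩, y)) (fun _ _ => mem_coe.2 (mem_univ _)) ?_
    intro y hy z hz hyz
    by_contra hne
    rw [mem_coe] at hy hz
    exact hc _ y z (ne_of_mem_erase hy).symm (ne_of_mem_erase hz).symm hne hyz
  rw [card_erase_of_mem (mem_univ _), card_univ, card_univ, Fintype.card_fin, Fintype.card_fin] at h1
  exact h1

/-- lower bound for the number of colours, odd order -/
theorem le_of_proper_odd {n m : ℕ} (hn : 3 ≤ n) (hodd : n % 2 = 1) (c : Sym2 (Fin n) → Fin m)
    (hc : Proper c) : n ≤ m := by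
  by_contra hlt
  have h0 := le_of_proper c hc
  have hm : m = n - 1 := by omega
  have hm0 : 0 < m := by omega
  -- every vertex sees the colour 0
  have hex : ∀ x : Fin n, ∃ y : Fin n, y ≠ x ∧ c s(x, y) = ⟨0, hm0⟩ := by
    intro x
    have hinj : Set.InjOn (fun y => c s(x, y)) (univ.erase x : Finset (Fin n)) := by
      intro y hy z hz hyz
      by_contra hne
      rw [mem_coe] at hy hz
      exact hc _ y z (ne_of_mem_erase hy).symm (ne_of_mem_erase hz).symm hne hyz
    have himg : (univ.erase x).image (fun y => c s(x, y)) = univ := by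
      apply eq_univ_of_card
      rw [card_image_of_injOn hinj, card_erase_of_mem (mem_univ _), card_univ, Fintype.card_fin,
        Fintype.card_fin, hm]
    have hmem : (⟨0, hm0⟩ : Fin m) ∈ (univ.erase x).image (fun y => c s(x, y)) := by
      rw [himg]; exact mem_univ _
    rw [mem_image] at hmem
    obtain ⟨y, hy, hyc⟩ := hmem
    exact ⟨y, ne_of_mem_erase hy, hyc⟩
  choose σ hσ1 hσ2 using hex
  have hinv : ∀ x, σ (σ x) = x := by
    intro x
    by_contra hne
    apply hc (σ x) (σ (σ x)) x (hσ1 (σ x)).symm (hσ1 x) hne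
    rw [hσ2 (σ x), Sym2.eq_swap, hσ2 x]
  have hsum : ∑ x : Fin n, (1 : ZMod 2) = 0 := by
    refine Finset.sum_involution (fun x _ => σ x) ?_ ?_ ?_ ?_
    · intro x _
      exact CharTwo.add_self_eq_zero 1
    · intro x _ _
      exact hσ1 x
    · intro x _
      exact mem_univ _
    · intro x _
      exact hinv x
  rw [sum_const, card_univ, Fintype.card_fin, nsmul_eq_mul, mul_one,
    ZMod.natCast_eq_zero_iff] at hsum
  omega

/-- **Main theorem.** For every `k ≥ 3` and for `n = 2 ^ k` as well as `n = 2 ^ k - 1` the complete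
graph `K_n` has an optimal edge-colouring without rainbow cycles of length `2 ^ k - 2` and without
rainbow cycles of length `2 ^ k - 3`; in both cases one of these lengths is `n - 2`. -/
theorem main (k : ℕ) (hk : 3 ≤ k) :
    (∃ c : Sym2 (Fin (2 ^ k)) → Fin (2 ^ k - 1), Optimal c ∧
      ¬ HasRainbowCycle c (2 ^ k - 2) ∧ ¬ HasRainbowCycle c (2 ^ k - 3)) ∧
    (∃ c : Sym2 (Fin (2 ^ k - 1)) → Fin (2 ^ k - 1), Optimal c ∧
      ¬ HasRainbowCycle c (2 ^ k - 1 - 1) ∧ ¬ HasRainbowCycle c (2 ^ k - 1 - 2)) := by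
  have hpow : 8 ≤ 2 ^ k := by
    calc 8 = 2 ^ 3 := by norm_num
      _ ≤ 2 ^ k := Nat.pow_le_pow_right (by norm_num) hk
  have hk2 : 2 ≤ k := by omega
  constructor
  · have hcard : Fintype.card (G k) = 2 ^ k := by
      rw [Fintype.card_fun, ZMod.card, Fintype.card_fin]
    have f := (Fintype.equivFinOfCardEq hcard).symm
    refine ⟨colF f hk2, ⟨proper_colF f hk2 f.injective, ?_⟩, ?_, ?_⟩
    · intro m' c' hc'
      exact le_of_proper c' hc'
    · exact no_rainbow f hk2 f.injective _ (Or.inl rfl)
    · exact no_rainbow f hk2 f.injective _ (Or.inr rfl)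
  · have e := (Fintype.equivFinOfCardEq (card_nz (k := k))).symm
    have hf : Function.Injective (fun x : Fin (2 ^ k - 1) => (e x : G k)) :=
      Subtype.val_injective.comp e.injective
    refine ⟨colF _ hk2, ⟨proper_colF _ hk2 hf, ?_⟩, ?_, ?_⟩
    · intro m' c' hc'
      refine le_of_proper_odd (by omega) ?_ c' hc'
      obtain ⟨j, rfl⟩ : ∃ j, k = j + 1 := ⟨k - 1, by omega⟩
      rw [pow_succ] at hpow ⊢
      omega
    · exact no_rainbow _ hk2 hf _ (Or.inl (by omega))
    · exact no_rainbow _ hk2 hf _ (Or.inr (by omega))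

end Pool.Agent.Y899.Rainbow
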