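import Mathlib

/-!
Nontrivial `p`-adic zeros of `x_1 ^ d + ... + x_n ^ d` for `n ≥ d ^ 3`, all primes `p`.
-/

namespace Pool.Agent.Y899

open Polynomial

/-- Hensel's lemma for `T ^ d + c`. -/
theorem hensel_pow_add {p : ℕ} [hp : Fact p.Prime] (d : ℕ) (hd : 2 ≤ d) (c a : ℤ_[p])
    (h : ‖a ^ d + c‖ < ‖(d : ℤ_[p]) * a ^ (d - 1)‖ ^ 2) :
    ∃ z : ℤ_[p], z ^ d + c = 0 ∧ z ≠ 0 := by
  set F : ℤ_[p][X] := X ^ d + C c with hF
  have h1 : F.aeval a = a ^ d + c := by simp [hF]
  have h2 : F.derivative.aeval a = (d : ℤ_[p]) * a ^ (d - 1) := by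
    rw [hF, derivative_add, derivative_C, add_zero, derivative_X_pow]
    simp
  have hn : ‖F.aeval a‖ < ‖F.derivative.aeval a‖ ^ 2 := by rw [h1, h2]; exact h
  obtain ⟨z, hz, -, hz2, -⟩ := hensels_lemma hn
  have h3 : F.aeval z = z ^ d + c := by simp [hF]
  have h4 : F.derivative.aeval z = (d : ℤ_[p]) * z ^ (d - 1) := by
    rw [hF, derivative_add, derivative_C, add_zero, derivative_X_pow]
    simp
  refine ⟨z, by rw [← h3]; exact hz, ?_⟩
  rintro rfl
  have hpos : 0 < ‖F.derivative.aeval a‖ := by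
    by_contra hc
    have : ‖F.derivative.aeval a‖ = 0 := le_antisymm (not_lt.1 hc) (norm_nonneg _)
    rw [this, zero_pow two_ne_zero] at hn
    exact absurd hn (not_lt.2 (norm_nonneg _))
  rw [← hz2, h4, zero_pow (by omega)] at hpos
  simp at hpos

/-- primes dividing `d`: a sum of `d ^ 3` powers. -/
theorem zero_of_dvd {p : ℕ} [hp : Fact p.Prime] (d : ℕ) (hd : 2 ≤ d) (hpd : p ∣ d)
    (n : ℕ) (hn : d ^ 3 ≤ n) :
    ∃ z : Fin n → ℤ_[p], z ≠ 0 ∧ ∑ i, z i ^ d = 0 := by
  set v := padicValNat p d with hv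
  have hd0 : d ≠ 0 := by omega
  have hpv : p ^ v ∣ d := pow_padicValNat_dvd
  have hple : p ≤ d := Nat.le_of_dvd (by omega) hpd
  have hpvle : p ^ v ≤ d := Nat.le_of_dvd (by omega) hpv
  have hp2 : 2 ≤ p := hp.out.two_le
  set N := p ^ (2 * v + 1) with hN
  have hNle : N ≤ n := by
    calc N = p ^ v * p ^ v * p := by rw [hN]; ring
      _ ≤ d * d * d := by gcongr
      _ = d ^ 3 := by ring
      _ ≤ n := hn
  have hN0 : 0 < N := by positivity
  have hnormN : ‖((N : ℕ) : ℤ_[p])‖ = (p : ℝ) ^ (-((2 * v + 1 : ℕ) : ℤ)) := by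
    rw [hN]; push_cast
    rw [PadicInt.norm_p_pow]; push_cast; rfl
  have hnormd : ‖((d : ℕ) : ℤ_[p])‖ = (p : ℝ) ^ (-(v : ℤ)) := by
    rw [PadicInt.norm_eq_zpow_neg_valuation (by exact_mod_cast hd0)]
    congr 2
    have h1 : (((d : ℕ) : ℤ_[p]) : ℚ_[p]).valuation = padicValNat p d := by
      rw [PadicInt.coe_natCast, Padic.valuation_natCast]
    rw [PadicInt.valuation_coe] at h1
    exact h1
  obtain ⟨z, hz, hz0⟩ := hensel_pow_add d hd (((N - 1 : ℕ) : ℤ_[p])) 1 (by
    rw [one_pow, one_pow, mul_one, hnormd]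
    have : (1 : ℤ_[p]) + ((N - 1 : ℕ) : ℤ_[p]) = ((N : ℕ) : ℤ_[p]) := by
      rw [Nat.cast_sub (by omega)]; push_cast; ring
    rw [this, hnormN, ← zpow_natCast, ← zpow_mul]
    apply zpow_lt_zpow_right₀ (by exact_mod_cast hp2)
    push_cast
    linarith)
  -- positions
  have hn0 : 0 < n := by omega
  refine ⟨fun i => if i.val = 0 then z else if i.val < N then 1 else 0, ?_, ?_⟩
  · intro h
    have := congrFun h ⟨0, hn0⟩
    simp at this
    exact hz0 this
  · have h1 : ∀ i : Fin n, (if i.val = 0 then z else if i.val < N then 1 else 0) ^ d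
        = (fun j : ℕ => if j = 0 then z ^ d else if j < N then (1 : ℤ_[p]) else 0) i.val := by
      intro i
      by_cases h0 : i.val = 0
      · simp [h0]
      · by_cases h1 : i.val < N
        · simp [h0, h1]
        · simp [h0, h1, hd0]
    simp_rw [h1]
    rw [Fin.sum_univ_eq_sum_range (fun j : ℕ => if j = 0 then z ^ d else if j < N then (1 : ℤ_[p]) else 0)]
    have h2 : ∑ j ∈ Finset.range n, (if j = 0 then z ^ d else if j < N then (1 : ℤ_[p]) else 0)
        = ∑ j ∈ Finset.range N, (if j = 0 then z ^ d else if j < N then (1 : ℤ_[p]) else 0) := by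
      symm
      apply Finset.sum_subset
      · intro j hj
        simp only [Finset.mem_range] at hj ⊢
        omega
      · intro j hj1 hj2
        simp only [Finset.mem_range] at hj1 hj2
        rw [if_neg (by omega), if_neg (by omega)]
    rw [h2]
    obtain ⟨M, hM⟩ : ∃ M, N = M + 1 := ⟨N - 1, by omega⟩
    rw [hM, Finset.sum_range_succ']
    simp only [if_true]
    have h3 : ∑ k ∈ Finset.range M, (if k + 1 = 0 then z ^ d else if k + 1 < M + 1 then (1 : ℤ_[p]) else 0)
        = (M : ℤ_[p]) := by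
      rw [Finset.sum_congr rfl (g := fun _ => (1 : ℤ_[p]))]
      · simp
      · intro k hk
        simp only [Finset.mem_range] at hk
        rw [if_neg (by omega), if_pos (by omega)]
    rw [h3]
    have h4 : (N - 1 : ℕ) = M := by omega
    rw [h4] at hz
    rw [add_comm]
    exact hz

/-- primes not dividing `d`: Chevalley-Warning. -/
theorem zero_of_not_dvd {p : ℕ} [hp : Fact p.Prime] (d : ℕ) (hd : 2 ≤ d) (hpd : ¬ p ∣ d)
    (n : ℕ) (hn : d < n) :
    ∃ z : Fin n → ℤ_[p], z ≠ 0 ∧ ∑ i, z i ^ d = 0 := by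
  classical
  set f : MvPolynomial (Fin n) (ZMod p) := ∑ i, MvPolynomial.X i ^ d with hf
  have hdeg : f.totalDegree < Fintype.card (Fin n) := by
    rw [Fintype.card_fin]
    refine lt_of_le_of_lt ?_ hn
    refine (MvPolynomial.totalDegree_finsetSum _ _).trans ?_
    apply Finset.sup_le
    intro i _
    exact (MvPolynomial.totalDegree_pow _ _).trans (by simp)
  have hdvd := char_dvd_card_solutions p hdeg
  have heval : ∀ x : Fin n → ZMod p, MvPolynomial.eval x f = ∑ i, x i ^ d := by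
    intro x; simp [hf]
  obtain ⟨x, hx0, hx⟩ : ∃ x : Fin n → ZMod p, x ≠ 0 ∧ ∑ i, x i ^ d = 0 := by
    have h0 : MvPolynomial.eval (0 : Fin n → ZMod p) f = 0 := by
      rw [heval]; simp; right; omega
    have hcard : 1 < Fintype.card {x : Fin n → ZMod p // MvPolynomial.eval x f = 0} := by
      have hpos : 0 < Fintype.card {x : Fin n → ZMod p // MvPolynomial.eval x f = 0} :=
        Fintype.card_pos_iff.2 ⟨⟨0, h0⟩⟩
      exact lt_of_lt_of_le hp.out.one_lt (Nat.le_of_dvd hpos hdvd)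
    obtain ⟨⟨y, hy⟩, hne⟩ := Fintype.exists_ne_of_one_lt_card hcard ⟨0, h0⟩
    refine ⟨y, fun h => hne (Subtype.ext h), ?_⟩
    rw [← heval]; exact hy
  obtain ⟨i0, hi0⟩ : ∃ i, x i ≠ 0 := by
    by_contra hc
    push Not at hc
    exact hx0 (funext hc)
  -- lift
  set X : Fin n → ℤ_[p] := fun i => ((x i).val : ℤ_[p]) with hX
  have hXmod : ∀ i, PadicInt.toZMod (X i) = x i := by
    intro i
    simp [hX]
  have hsplit : ∀ Y : Fin n → ℤ_[p], ∑ i, Y i ^ d = Y i0 ^ d + ∑ i ∈ Finset.univ.erase i0, Y i ^ d := by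
    intro Y
    exact (Finset.add_sum_erase Finset.univ (fun i => Y i ^ d) (Finset.mem_univ i0)).symm
  set c : ℤ_[p] := ∑ i ∈ Finset.univ.erase i0, X i ^ d with hc
  have hsmall : ‖X i0 ^ d + c‖ < 1 := by
    rw [← hsplit]
    have h1 : PadicInt.toZMod (∑ i, X i ^ d) = 0 := by
      rw [map_sum]
      simp_rw [map_pow, hXmod]
      exact hx
    have h2 : (∑ i, X i ^ d) ∈ RingHom.ker (PadicInt.toZMod (p := p)) := h1
    rw [PadicInt.ker_toZMod, IsLocalRing.mem_maximalIdeal] at h2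
    exact PadicInt.mem_nonunits.1 h2
  have hunit : ‖(d : ℤ_[p]) * X i0 ^ (d - 1)‖ = 1 := by
    rw [norm_mul, norm_pow]
    have h1 : ‖(d : ℤ_[p])‖ = 1 := by
      rw [PadicInt.norm_natCast_eq_one_iff]
      exact (Nat.Prime.coprime_iff_not_dvd hp.out).2 hpd
    have h2 : ‖X i0‖ = 1 := by
      rw [hX]
      simp only
      rw [PadicInt.norm_natCast_eq_one_iff]
      refine (Nat.Prime.coprime_iff_not_dvd hp.out).2 ?_
      intro h
      have h3 := ZMod.val_lt (x i0)
      have h4 : (x i0).val = 0 := Nat.eq_zero_of_dvd_of_lt h h3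
      exact hi0 ((ZMod.val_eq_zero _).1 h4)
    rw [h1, h2, one_pow, mul_one]
  obtain ⟨z, hz, hz0⟩ := hensel_pow_add d hd c (X i0) (by rw [hunit, one_pow]; exact hsmall)
  refine ⟨Function.update X i0 z, ?_, ?_⟩
  · intro h
    have := congrFun h i0
    rw [Function.update_self] at this
    exact hz0 this
  · rw [hsplit, Function.update_self]
    have h1 : ∑ i ∈ Finset.univ.erase i0, Function.update X i0 z i ^ d = c := by
      rw [hc]
      apply Finset.sum_congr rfl
      intro i hi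
      rw [Function.update_of_ne (Finset.ne_of_mem_erase hi)]
    rw [h1]; exact hz

/-- `x_1 ^ d + ... + x_n ^ d`, `n ≥ d ^ 3`, has a nontrivial zero over `ℤ_p` for every `p`. -/
theorem diag_zero (p : ℕ) [hp : Fact p.Prime] (d : ℕ) (hd : 2 ≤ d) (n : ℕ) (hn : d ^ 3 ≤ n) :
    ∃ z : Fin n → ℤ_[p], z ≠ 0 ∧ ∑ i, z i ^ d = 0 := by
  by_cases hpd : p ∣ d
  · exact zero_of_dvd d hd hpd n hn
  · refine zero_of_not_dvd d hd hpd n (lt_of_lt_of_le ?_ hn)
    calc d = d * 1 := by ring
      _ < d * (d * d) := by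
        apply Nat.mul_lt_mul_of_pos_left _ (by omega)
        nlinarith
      _ = d ^ 3 := by ring

end Pool.Agent.Y899
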