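import Mathlib
import Pool.Agent.Y899.DiagPadic

/-!
The form `(y_0 ^ k - 2 y_1 ^ k) ^ 2 + y_0 ^ k y_2 ^ k + ∑_{i ≥ 2} y_i ^ (2 k)` for even `k`.
-/

namespace Pool.Agent.Y899.EvenHasse

open MvPolynomial

/-- the Gram matrix of `(x_0 - 2 x_1) ^ 2 + x_0 x_2 + ∑_{i ≥ 2} x_i ^ 2` -/
def gram (s : ℕ) : Matrix (Fin s) (Fin s) ℚ := fun i j =>
  if i.val = j.val then (if i.val = 1 then 4 else 1)
  else if i.val = 0 ∧ j.val = 1 ∨ i.val = 1 ∧ j.val = 0 then -2
  else if i.val = 0 ∧ j.val = 2 ∨ i.val = 2 ∧ j.val = 0 then 1 / 2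
  else 0

theorem gram_symm (s : ℕ) : (gram s).IsSymm := by
  ext i j
  simp only [gram, Matrix.transpose_apply]
  by_cases h1 : i.val = j.val
  · simp [h1]
  · have h2 : ¬ j.val = i.val := fun h => h1 h.symm
    rw [if_neg h1, if_neg h2]
    by_cases h3 : i.val = 0 ∧ j.val = 1 ∨ i.val = 1 ∧ j.val = 0
    · rw [if_pos h3, if_pos (by tauto)]
    · rw [if_neg h3, if_neg (by tauto)]
      by_cases h4 : i.val = 0 ∧ j.val = 2 ∨ i.val = 2 ∧ j.val = 0
      · rw [if_pos h4, if_pos (by tauto)]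
      · rw [if_neg h4, if_neg (by tauto)]

theorem v0 (n : ℕ) : (0 : Fin (n + 3)).val = 0 := rfl
theorem v1 (n : ℕ) : (1 : Fin (n + 3)).val = 1 := rfl
theorem v2 (n : ℕ) : (2 : Fin (n + 3)).val = 2 := rfl
theorem v3 (n : ℕ) (i : Fin n) : (i.succ.succ.succ : Fin (n + 3)).val = i.val + 3 := rfl

theorem sum3 {M : Type} [AddCommMonoid M] (n : ℕ) (f : Fin (n + 3) → M) :
    ∑ j, f j = f 0 + (f 1 + (f 2 + ∑ i : Fin n, f i.succ.succ.succ)) := by
  rw [Fin.sum_univ_succ, Fin.sum_univ_succ, Fin.sum_univ_succ]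
  rfl

variable {K : Type} [Field K] [Algebra ℚ K]

theorem row0 (n : ℕ) (x : Fin (n + 3) → K) :
    ∑ j, algebraMap ℚ K (gram (n + 3) 0 j) * x j = x 0 - 2 * x 1 + 2⁻¹ * x 2 := by
  rw [sum3]
  have h : ∑ i : Fin n, algebraMap ℚ K (gram (n + 3) 0 i.succ.succ.succ) * x i.succ.succ.succ
      = 0 := by
    apply Finset.sum_eq_zero
    intro i _
    have : gram (n + 3) 0 i.succ.succ.succ = 0 := by
      simp only [gram, v0, v3]
      rw [if_neg (by omega), if_neg (by omega), if_neg (by omega)]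
    rw [this, map_zero, zero_mul]
  rw [h]
  simp only [gram, v0, v1, v2]
  norm_num
  ring

theorem row1 (n : ℕ) (x : Fin (n + 3) → K) :
    ∑ j, algebraMap ℚ K (gram (n + 3) 1 j) * x j = -2 * x 0 + 4 * x 1 := by
  rw [sum3]
  simp only [gram, v0, v1, v2, v3]
  norm_num

theorem row2 (n : ℕ) (x : Fin (n + 3) → K) :
    ∑ j, algebraMap ℚ K (gram (n + 3) 2 j) * x j = 2⁻¹ * x 0 + x 2 := by
  rw [sum3]
  simp only [gram, v0, v1, v2, v3]
  norm_num

theorem row3 (n : ℕ) (x : Fin (n + 3) → K) (i : Fin n) :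
    ∑ j, algebraMap ℚ K (gram (n + 3) i.succ.succ.succ j) * x j = x i.succ.succ.succ := by
  rw [sum3]
  simp only [gram, v0, v1, v2, v3]
  norm_num
  rw [Finset.sum_eq_single i]
  · simp
  · intro j _ hj
    rw [if_neg]
    · simp
    · intro h; exact hj (Fin.ext h.symm)
  · intro h; exact absurd (Finset.mem_univ i) h

theorem quad (n : ℕ) (x : Fin (n + 3) → K) :
    ∑ i, ∑ j, algebraMap ℚ K (gram (n + 3) i j) * (x i * x j) =
      (x 0 - 2 * x 1) ^ 2 + x 0 * x 2 + (x 2 ^ 2 + ∑ i : Fin n, x i.succ.succ.succ ^ 2) := by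
  have h : ∀ i, ∑ j, algebraMap ℚ K (gram (n + 3) i j) * (x i * x j) =
      x i * ∑ j, algebraMap ℚ K (gram (n + 3) i j) * x j := by
    intro i
    rw [Finset.mul_sum]
    exact Finset.sum_congr rfl fun j _ => by ring
  simp_rw [h]
  have h2 : (2 : K) * 2⁻¹ = 1 := by
    have : (2 : K) ≠ 0 := by
      have := (algebraMap ℚ K).injective.ne (show (2 : ℚ) ≠ 0 by norm_num)
      simpa using this
    exact mul_inv_cancel₀ this
  rw [sum3, row0, row1, row2]
  simp_rw [row3]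
  have h3 : ∑ i : Fin n, x i.succ.succ.succ * x i.succ.succ.succ
      = ∑ i : Fin n, x i.succ.succ.succ ^ 2 := Finset.sum_congr rfl fun i _ => by ring
  rw [h3]
  linear_combination (x 0 * x 2) * h2

theorem gram_det (n : ℕ) : (gram (n + 3)).det ≠ 0 := by
  intro hdet
  obtain ⟨x, hx0, hx⟩ := Matrix.exists_mulVec_eq_zero_iff.2 hdet
  have hrow : ∀ i, ∑ j, algebraMap ℚ ℚ (gram (n + 3) i j) * x j = 0 := by
    intro i
    have := congrFun hx i
    simpa [Matrix.mulVec, dotProduct] using this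
  have r0 := hrow 0
  have r1 := hrow 1
  have r2 := hrow 2
  rw [row0] at r0
  rw [row1] at r1
  rw [row2] at r2
  have e2 : x 2 = 0 := by linarith
  have e0 : x 0 = 0 := by rw [e2] at r2; linarith
  have e1 : x 1 = 0 := by rw [e0] at r1; linarith
  apply hx0
  funext i
  rcases Fin.eq_zero_or_eq_succ i with rfl | ⟨j, rfl⟩
  · exact e0
  rcases Fin.eq_zero_or_eq_succ j with rfl | ⟨j, rfl⟩
  · exact e1
  rcases Fin.eq_zero_or_eq_succ j with rfl | ⟨j, rfl⟩
  · exact e2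
  have := hrow j.succ.succ.succ
  rw [row3] at this
  exact this

/-- the form -/
noncomputable def form {s : ℕ} (k : ℕ) (A : Matrix (Fin s) (Fin s) ℚ) :
    MvPolynomial (Fin s) ℚ :=
  ∑ i, ∑ j, C (A i j) * (X i ^ k * X j ^ k)

theorem aeval_form {s : ℕ} (k : ℕ) (A : Matrix (Fin s) (Fin s) ℚ) (y : Fin s → K) :
    aeval y (form k A) = ∑ i, ∑ j, algebraMap ℚ K (A i j) * (y i ^ k * y j ^ k) := by
  simp only [form, map_sum, map_mul, map_pow, aeval_X, aeval_C]

theorem aeval_gram (k n : ℕ) (y : Fin (n + 3) → K) :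
    aeval y (form k (gram (n + 3))) =
      (y 0 ^ k - 2 * y 1 ^ k) ^ 2 + y 0 ^ k * y 2 ^ k +
        ((y 2 ^ k) ^ 2 + ∑ i : Fin n, (y i.succ.succ.succ ^ k) ^ 2) := by
  rw [aeval_form, quad n (fun i => y i ^ k)]

theorem pderiv_form {s : ℕ} (k : ℕ) (A : Matrix (Fin s) (Fin s) ℚ) (hA : A.IsSymm) (i : Fin s)
    (y : Fin s → K) :
    aeval y (pderiv i (form k A)) =
      2 * (k * y i ^ (k - 1)) * ∑ j, algebraMap ℚ K (A i j) * y j ^ k := by
  have h1 : ∀ a b : Fin s, aeval y (pderiv i (C (A a b) * (X a ^ k * X b ^ k) :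
      MvPolynomial (Fin s) ℚ)) =
      (if a = i then k * y i ^ (k - 1) * (algebraMap ℚ K (A i b) * y b ^ k) else 0) +
      (if b = i then k * y i ^ (k - 1) * (algebraMap ℚ K (A a i) * y a ^ k) else 0) := by
    intro a b
    rw [pderiv_C_mul, Derivation.leibniz, Derivation.leibniz_pow, Derivation.leibniz_pow]
    rw [pderiv_X, pderiv_X]
    simp only [map_add, map_mul, map_pow, aeval_X, aeval_C, smul_eq_mul, nsmul_eq_mul,
      map_natCast, Pi.single_apply]
    by_cases ha : a = i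
    · subst ha
      by_cases hb : b = a
      · subst hb
        simp
        ring
      · simp [hb]
        ring
    · by_cases hb : b = i
      · subst hb
        simp [ha]
        ring
      · simp [ha, hb]
  simp only [form, map_sum, h1, Finset.sum_add_distrib]
  have h2 : ∑ a : Fin s, ∑ b : Fin s,
      (if a = i then (k : K) * y i ^ (k - 1) * (algebraMap ℚ K (A i b) * y b ^ k) else 0) =
      k * y i ^ (k - 1) * ∑ j, algebraMap ℚ K (A i j) * y j ^ k := by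
    rw [Finset.sum_eq_single i]
    · rw [Finset.mul_sum]
      exact Finset.sum_congr rfl fun b _ => by rw [if_pos rfl]
    · intro a _ ha
      exact Finset.sum_eq_zero fun b _ => by rw [if_neg ha]
    · intro h; exact absurd (Finset.mem_univ i) h
  have h3 : ∑ a : Fin s, ∑ b : Fin s,
      (if b = i then (k : K) * y i ^ (k - 1) * (algebraMap ℚ K (A a i) * y a ^ k) else 0) =
      k * y i ^ (k - 1) * ∑ j, algebraMap ℚ K (A i j) * y j ^ k := by
    rw [Finset.mul_sum]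
    apply Finset.sum_congr rfl
    intro a _
    rw [Finset.sum_eq_single i]
    · rw [if_pos rfl, hA.apply]
    · intro b _ hb
      rw [if_neg hb]
    · intro h; exact absurd (Finset.mem_univ i) h
  rw [h2, h3]
  ring

/-- real zero -/
theorem real_zero (k n : ℕ) (hk : 0 < k) :
    ∃ y : Fin (n + 3) → ℝ, y ≠ 0 ∧ aeval y (form k (gram (n + 3))) = 0 := by
  set r : ℝ := (2 : ℝ) ^ ((k : ℝ)⁻¹) with hr
  have hrk : r ^ k = 2 := by
    rw [hr]
    exact Real.rpow_inv_natCast_pow (by norm_num) hk.ne'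
  refine ⟨Fin.cons r (Fin.cons 1 fun _ => 0), ?_, ?_⟩
  · intro h
    have := congrFun h 1
    have e : (1 : Fin (n + 3)) = Fin.succ 0 := rfl
    rw [e, Fin.cons_succ, Fin.cons_zero] at this
    simp at this
  · rw [aeval_gram]
    have e1 : (1 : Fin (n + 3)) = Fin.succ 0 := rfl
    have e2 : (2 : Fin (n + 3)) = Fin.succ (Fin.succ 0) := rfl
    rw [e1, e2]
    simp only [Fin.cons_zero, Fin.cons_succ]
    simp [hrk, hk.ne']

/-- no rational zero -/
theorem no_rat_zero (k n : ℕ) (hk : 2 ≤ k) (hke : Even k) (y : Fin (n + 3) → ℚ)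
    (hy : aeval y (form k (gram (n + 3))) = 0) : y = 0 := by
  rw [aeval_gram] at hy
  have h0 : 0 ≤ y 0 ^ k := hke.pow_nonneg _
  have h1 : 0 ≤ y 1 ^ k := hke.pow_nonneg _
  have h2 : 0 ≤ y 2 ^ k := hke.pow_nonneg _
  have hs : 0 ≤ ∑ i : Fin n, (y i.succ.succ.succ ^ k) ^ 2 := Finset.sum_nonneg fun i _ => sq_nonneg _
  have h02 : 0 ≤ y 0 ^ k * y 2 ^ k := mul_nonneg h0 h2
  have hsq := sq_nonneg (y 0 ^ k - 2 * y 1 ^ k)
  have hsq2 := sq_nonneg (y 2 ^ k)
  have a1 : (y 0 ^ k - 2 * y 1 ^ k) ^ 2 = 0 := by linarith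
  have a2 : (y 2 ^ k) ^ 2 = 0 := by linarith
  have a3 : ∑ i : Fin n, (y i.succ.succ.succ ^ k) ^ 2 = 0 := by linarith
  have b2 : y 2 = 0 := pow_eq_zero_iff (by omega) |>.1 (pow_eq_zero_iff (two_ne_zero) |>.1 a2)
  have b3 : ∀ i : Fin n, y i.succ.succ.succ = 0 := by
    intro i
    have := (Finset.sum_eq_zero_iff_of_nonneg (fun i _ => sq_nonneg _)).1 a3 i (Finset.mem_univ i)
    exact pow_eq_zero_iff (by omega) |>.1 (pow_eq_zero_iff (two_ne_zero) |>.1 this)
  have a4 : y 0 ^ k = 2 * y 1 ^ k := by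
    have := pow_eq_zero_iff (two_ne_zero) |>.1 a1
    linarith
  have b1 : y 1 = 0 := by
    by_contra hne
    have h5 : (y 0 / y 1) ^ k = 2 := by
      rw [div_pow, a4]
      field_simp
    -- `2` is not a `k`-th power of a rational number
    have h6 : (((y 0 / y 1) ^ (k / 2) : ℚ)) ^ 2 = 2 := by
      rw [← pow_mul]
      rw [Nat.div_mul_cancel hke.two_dvd]
      exact h5
    have h7 : IsSquare (2 : ℚ) := ⟨(y 0 / y 1) ^ (k / 2), by rw [← sq]; exact h6.symm⟩
    have h8 : IsSquare (2 : ℕ) := by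
      rw [← Rat.isSquare_natCast_iff]
      exact_mod_cast h7
    exact Nat.prime_two.prime.not_isSquare h8
  have b0 : y 0 = 0 := by
    rw [b1, zero_pow (by omega), mul_zero] at a4
    exact pow_eq_zero_iff (by omega) |>.1 a4
  funext i
  rcases Fin.eq_zero_or_eq_succ i with rfl | ⟨j, rfl⟩
  · exact b0
  rcases Fin.eq_zero_or_eq_succ j with rfl | ⟨j, rfl⟩
  · exact b1
  rcases Fin.eq_zero_or_eq_succ j with rfl | ⟨j, rfl⟩
  · exact b2
  exact b3 j

/-- smooth `p`-adic zeros -/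
theorem padic_zero (p : ℕ) [hp : Fact p.Prime] (k n : ℕ) (hk : 0 < k) (hn : (2 * k) ^ 3 ≤ n + 1) :
    ∃ y : Fin (n + 3) → ℚ_[p], y ≠ 0 ∧ aeval y (form k (gram (n + 3))) = 0 ∧
      ∃ i, aeval y (pderiv i (form k (gram (n + 3)))) ≠ 0 := by
  obtain ⟨z, hz0, hz⟩ := diag_zero p (2 * k) (by omega) (n + 1) hn
  obtain ⟨i0, hi0⟩ : ∃ i, z i ≠ 0 := by
    by_contra hc
    push Not at hc
    exact hz0 (funext hc)
  set y : Fin (n + 3) → ℚ_[p] := Fin.cons 0 (Fin.cons 0 fun i => (z i : ℚ_[p])) with hy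
  have y0 : y 0 = 0 := by simp [hy]
  have y1 : y 1 = 0 := by
    have e1 : (1 : Fin (n + 3)) = Fin.succ 0 := rfl
    rw [hy, e1, Fin.cons_succ, Fin.cons_zero]
  have y2 : ∀ i : Fin (n + 1), y i.succ.succ = (z i : ℚ_[p]) := by
    intro i
    rw [hy, Fin.cons_succ, Fin.cons_succ]
  have e2 : (2 : Fin (n + 3)) = Fin.succ (Fin.succ 0) := rfl
  have hi0' : (z i0 : ℚ_[p]) ≠ 0 := by
    intro h
    exact hi0 (PadicInt.coe_eq_zero.1 h)
  refine ⟨y, ?_, ?_, i0.succ.succ, ?_⟩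
  · intro h
    have := congrFun h i0.succ.succ
    rw [y2] at this
    exact hi0' this
  · rw [aeval_gram, y0, y1, e2, y2]
    simp_rw [y2]
    have h1 : ((z 0 : ℚ_[p]) ^ k) ^ 2 + ∑ i : Fin n, ((z i.succ : ℚ_[p]) ^ k) ^ 2 =
        ((∑ i, z i ^ (2 * k) : ℤ_[p]) : ℚ_[p]) := by
      rw [Fin.sum_univ_succ, PadicInt.coe_add, PadicInt.coe_sum, PadicInt.coe_pow]
      congr 1
      · ring
      · exact Finset.sum_congr rfl fun i _ => by rw [PadicInt.coe_pow]; ring
    rw [h1, hz]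
    simp [hk.ne']
  · rw [pderiv_form k _ (gram_symm _), y2]
    have hrow : ∑ j, algebraMap ℚ ℚ_[p] (gram (n + 3) i0.succ.succ j) * y j ^ k
        = (z i0 : ℚ_[p]) ^ k := by
      rcases Fin.eq_zero_or_eq_succ i0 with h | ⟨j, hj⟩
      · rw [h, ← e2, row2 n (fun i => y i ^ k), y0, e2, y2, zero_pow hk.ne', mul_zero, zero_add]
      · rw [hj, row3 n (fun i => y i ^ k), y2]
    rw [hrow]
    have hk0 : (k : ℚ_[p]) ≠ 0 := by exact_mod_cast hk.ne'
    exact mul_ne_zero (mul_ne_zero two_ne_zero (mul_ne_zero hk0 (pow_ne_zero _ hi0')))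
      (pow_ne_zero _ hi0')

end Pool.Agent.Y899.EvenHasse
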