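import Mathlib
import Pool.Agent.Helper770.Straight
import Pool.Agent.Helper805.CHS.Drawn

set_option autoImplicit false

/-!
# Self-complementary optimal biplanar drawings: `K_9` has none

A self-complementary graph on nine vertices has a `K_5` minor, hence in a biplanar drawing of `K_9`
with isomorphic planes both planes have a crossing; but `K_9` has a biplanar drawing with only one
crossing.
-/

namespace Pool.Agent.Y899.BiSC

open Pool.Agent.Helper770.Straight Pool.Agent.Helper805.CHS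

/-! ### self-complementary graphs on nine vertices -/

theorem k5_of_antimorphism (A : SimpleGraph (Fin 9)) (π : Fin 9 ≃ Fin 9)
    (H : ∀ u v, u ≠ v → (A.Adj (π u) (π v) ↔ ¬ A.Adj u v)) : K5Model A := by
  classical
  set X := (Finset.univ : Finset (Fin 9)).filter (fun x => A.Adj x (π x)) with hX
  set Fx := (Finset.univ : Finset (Fin 9)).filter (fun x => π x = x) with hFx
  have hXn : ∀ x, x ∈ X ↔ A.Adj x (π x) := fun x => by simp [hX]
  have hFn : ∀ x, x ∈ Fx ↔ π x = x := fun x => by simp [hFx]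
  have hstep : ∀ x, π x ≠ x → (π x ∈ X ↔ x ∉ X) := by
    intro x hx
    rw [hXn, hXn]
    exact H x (π x) hx.symm
  have hXF : ∀ x ∈ X, π x ≠ x := by
    intro x hx h
    rw [hXn, h] at hx
    exact hx.ne rfl
  have hd1 : Disjoint X (X.map π.toEmbedding) := by
    rw [Finset.disjoint_left]
    intro y hy hy'
    rw [Finset.mem_map] at hy'
    obtain ⟨x, hx, rfl⟩ := hy'
    exact ((hstep x (hXF x hx)).1 hy) hx
  have hd2 : Disjoint (X ∪ X.map π.toEmbedding) Fx := by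
    rw [Finset.disjoint_left]
    intro y hy hy'
    rw [hFn] at hy'
    rw [Finset.mem_union, Finset.mem_map] at hy
    rcases hy with hy | ⟨x, hx, rfl⟩
    · exact hXF y hy hy'
    · exact hXF x hx (π.injective hy')
  have hun : (X ∪ X.map π.toEmbedding) ∪ Fx = Finset.univ := by
    rw [Finset.eq_univ_iff_forall]
    intro y
    obtain ⟨x, rfl⟩ := π.surjective y
    rw [Finset.mem_union, Finset.mem_union, Finset.mem_map, hFn]
    by_cases hx : π x = x
    · right; rw [hx]; exact hx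
    · left
      by_cases hxX : x ∈ X
      · right; exact ⟨x, hxX, rfl⟩
      · left; exact (hstep x hx).2 hxX
  have hcard : (X.card + X.card) + Fx.card = 9 := by
    have h := congrArg Finset.card hun
    rw [Finset.card_union_of_disjoint hd2, Finset.card_union_of_disjoint hd1, Finset.card_map,
      Finset.card_univ, Fintype.card_fin] at h
    exact h
  have hF1 : Fx.card ≤ 1 := by
    rw [Finset.card_le_one]
    intro a ha b hb
    rw [hFn] at ha hb
    by_contra hab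
    have := H a b hab
    rw [ha, hb] at this
    exact (iff_not_self this).elim
  have hX4 : X.card = 4 := by omega
  have hF : Fx.card = 1 := by omega
  obtain ⟨z, hz⟩ := Finset.card_eq_one.1 hF
  have hzz : π z = z := (hFn z).1 (by rw [hz]; exact Finset.mem_singleton_self z)
  let e := (X.equivFinOfCardEq hX4).symm
  let g : Fin 4 → Fin 9 := fun i => (e i).1
  have hg : ∀ i, g i ∈ X := fun i => (e i).2
  have hginj : ∀ i j, i ≠ j → g i ≠ g j := fun i j hij h => hij (e.injective (Subtype.ext h))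
  have hne1 : ∀ i j, g i ≠ π (g j) := by
    intro i j h
    exact Finset.disjoint_left.1 hd1 (hg i) (Finset.mem_map.2 ⟨g j, hg j, h.symm⟩)
  have hz1 : ∀ i, g i ≠ z := by
    intro i h
    exact hXF _ (hg i) (by rw [h]; exact hzz)
  have hz2 : ∀ i, π (g i) ≠ z := by
    intro i h
    apply hz1 i
    apply π.injective
    rw [h, hzz]
  -- the branch sets
  refine ⟨fun i => if h : i.val < 4 then {g ⟨i.val, h⟩, π (g ⟨i.val, h⟩)} else {z}, ?_, ?_, ?_⟩
  · intro i
    by_cases h : i.val < 4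
    · have hadj : A.Adj (g ⟨i.val, h⟩) (π (g ⟨i.val, h⟩)) := (hXn _).1 (hg _)
      dsimp only
      rw [dif_pos h]
      exact SimpleGraph.induce_pair_connected_of_adj hadj
    · dsimp only
      rw [dif_neg h]
      have : Nonempty ({z} : Set (Fin 9)) := ⟨⟨z, rfl⟩⟩
      exact ⟨SimpleGraph.Preconnected.of_subsingleton⟩
  · intro i j hij
    dsimp only
    split_ifs with h h' h'
    · have hij' : (⟨i.val, h⟩ : Fin 4) ≠ ⟨j.val, h'⟩ := fun hh => hij (Fin.ext (by simpa using hh))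
      rw [Set.disjoint_left]
      intro a ha hb
      simp only [Set.mem_insert_iff, Set.mem_singleton_iff] at ha hb
      rcases ha with ha | ha <;> rcases hb with hb | hb
      · exact hginj _ _ hij' (ha.symm.trans hb)
      · exact hne1 _ _ (ha.symm.trans hb)
      · exact hne1 _ _ (hb.symm.trans ha)
      · exact hginj _ _ hij' (π.injective (ha.symm.trans hb))
    · rw [Set.disjoint_left]
      intro a ha hb
      simp only [Set.mem_insert_iff, Set.mem_singleton_iff] at ha hb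
      rcases ha with ha | ha
      · exact hz1 _ (ha.symm.trans hb)
      · exact hz2 _ (ha.symm.trans hb)
    · rw [Set.disjoint_left]
      intro a hb ha
      simp only [Set.mem_insert_iff, Set.mem_singleton_iff] at ha hb
      rcases ha with ha | ha
      · exact hz1 _ (ha.symm.trans hb)
      · exact hz2 _ (ha.symm.trans hb)
    · exact absurd (Fin.ext (by omega)) hij
  · intro i j hij
    dsimp only
    split_ifs with h h' h'
    · have hij' : (⟨i.val, h⟩ : Fin 4) ≠ ⟨j.val, h'⟩ := fun hh => hij (Fin.ext (by simpa using hh))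
      by_cases hadj : A.Adj (g ⟨i.val, h⟩) (g ⟨j.val, h'⟩)
      · exact ⟨_, Or.inl rfl, _, Or.inl rfl, hadj⟩
      · exact ⟨_, Or.inr rfl, _, Or.inr rfl, (H _ _ (hginj _ _ hij')).2 hadj⟩
    · by_cases hadj : A.Adj (g ⟨i.val, h⟩) z
      · exact ⟨_, Or.inl rfl, _, rfl, hadj⟩
      · have := (H _ _ (hz1 ⟨i.val, h⟩)).2 hadj
        rw [hzz] at this
        exact ⟨_, Or.inr rfl, _, rfl, this⟩
    · by_cases hadj : A.Adj z (g ⟨j.val, h'⟩)
      · exact ⟨_, rfl, _, Or.inl rfl, hadj⟩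
      · have := (H _ _ (hz1 ⟨j.val, h'⟩).symm).2 hadj
        rw [hzz] at this
        exact ⟨_, rfl, _, Or.inr rfl, this⟩
    · exact absurd (Fin.ext (by omega)) hij

/-! ### drawings -/

/-- the crossings of a biplanar drawing, each counted eight times -/
def Crs {V : Type} (G : SimpleGraph V) (c : V → V → Fin 2) (γ : Fin 2 → V → V → ℝ → ℂ) :
    Set (Fin 2 × V × V × V × V × ℂ) :=
  {x : Fin 2 × V × V × V × V × ℂ |
    G.Adj x.2.1 x.2.2.1 ∧ G.Adj x.2.2.2.1 x.2.2.2.2.1 ∧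
    c x.2.1 x.2.2.1 = x.1 ∧ c x.2.2.2.1 x.2.2.2.2.1 = x.1 ∧
    ¬ (x.2.1 = x.2.2.2.1 ∧ x.2.2.1 = x.2.2.2.2.1) ∧
    ¬ (x.2.1 = x.2.2.2.2.1 ∧ x.2.2.1 = x.2.2.2.1) ∧
    (∃ t : ℝ, 0 < t ∧ t < 1 ∧ γ x.1 x.2.1 x.2.2.1 t = x.2.2.2.2.2) ∧
    (∃ t : ℝ, 0 < t ∧ t < 1 ∧ γ x.1 x.2.2.2.1 x.2.2.2.2.1 t = x.2.2.2.2.2)}

/-- biplanar drawings -/
def Valid {V : Type} (G : SimpleGraph V) (c : V → V → Fin 2) (p : Fin 2 → V → ℂ)
    (γ : Fin 2 → V → V → ℝ → ℂ) : Prop :=
  (∀ u v : V, G.Adj u v → c u v = c v u) ∧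
  (∀ i : Fin 2, Function.Injective (p i)) ∧
  (∀ i : Fin 2, ∀ u v : V, G.Adj u v → c u v = i →
    ContinuousOn (γ i u v) (Set.Icc (0:ℝ) 1) ∧
    Set.InjOn (γ i u v) (Set.Icc (0:ℝ) 1) ∧
    γ i u v 0 = p i u ∧ γ i u v 1 = p i v ∧
    (∀ t : ℝ, 0 ≤ t → t ≤ 1 → γ i v u t = γ i u v (1 - t)) ∧
    ∀ t : ℝ, 0 < t → t < 1 → ∀ w : V, γ i u v t ≠ p i w)

section general

variable {V : Type} {G : SimpleGraph V} {c : V → V → Fin 2} {p : Fin 2 → V → ℂ}
  {γ : Fin 2 → V → V → ℝ → ℂ}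

/-- the graph drawn in the plane `i` -/
abbrev Pl (G : SimpleGraph V) (c : V → V → Fin 2) (i : Fin 2) : SimpleGraph V :=
  SimpleGraph.fromRel (fun u v => G.Adj u v ∧ c u v = i)

theorem pl_adj (hV : Valid G c p γ) (i : Fin 2) (u v : V) :
    (Pl G c i).Adj u v ↔ G.Adj u v ∧ c u v = i := by
  rw [SimpleGraph.fromRel_adj]
  constructor
  · rintro ⟨-, h | h⟩
    · exact h
    · exact ⟨h.1.symm, by rw [hV.1 u v h.1.symm]; exact h.2⟩
  · intro h
    exact ⟨h.1.ne, Or.inl h⟩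

/-- a plane without crossings has no `K_5` minor -/
theorem no_k5 (hV : Valid G c p γ) (i : Fin 2) (hi : ∀ x ∈ Crs G c γ, x.1 ≠ i) :
    ¬ K5Model (Pl G c i) := by
  refine no_K5Model (p := p i) (γ := fun u v t => γ i u v t) ⟨hV.2.1 i, ?_, ?_, ?_, ?_, ?_⟩
  · intro u v huv
    rw [pl_adj hV] at huv
    exact ((hV.2.2 i u v huv.1 huv.2).1).comp_continuous continuous_subtype_val (fun t => t.2)
  · intro u v huv
    rw [pl_adj hV] at huv
    exact (hV.2.2 i u v huv.1 huv.2).2.2.1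
  · intro u v huv
    rw [pl_adj hV] at huv
    exact (hV.2.2 i u v huv.1 huv.2).2.2.2.1
  · intro u v huv z t ht
    rw [pl_adj hV] at huv
    obtain ⟨-, -, h0, h1, -, hav⟩ := hV.2.2 i u v huv.1 huv.2
    rcases eq_or_lt_of_le t.2.1 with h | h
    · left
      apply hV.2.1 i
      rw [← ht, ← h0]
      exact congrArg _ h.symm
    · rcases eq_or_lt_of_le t.2.2 with h' | h'
      · right
        apply hV.2.1 i
        rw [← ht, ← h1]
        exact congrArg _ h'
      · exact absurd ht (hav t h h' z)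
  · intro u v w x huv hwx h1 h2 h3 h4 t s hts
    rw [pl_adj hV] at huv hwx
    obtain ⟨-, -, h0, h1', -, hav⟩ := hV.2.2 i u v huv.1 huv.2
    obtain ⟨-, -, k0, k1, -, kav⟩ := hV.2.2 i w x hwx.1 hwx.2
    rcases eq_or_lt_of_le t.2.1 with h | h
    · left
      rw [← h0]
      exact congrArg _ h.symm
    rcases eq_or_lt_of_le t.2.2 with h' | h'
    · right
      rw [← h1']
      exact congrArg _ h'
    exfalso
    rcases eq_or_lt_of_le s.2.1 with k | k
    · apply hav t h h' w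
      rw [← k0]
      exact hts.trans (congrArg _ k.symm)
    rcases eq_or_lt_of_le s.2.2 with k' | k'
    · apply hav t h h' x
      rw [← k1]
      exact hts.trans (congrArg _ k')
    exact hi (i, u, v, w, x, γ i u v t) ⟨huv.1, hwx.1, huv.2, hwx.2, fun hh => h1 hh.1,
      fun hh => h2 hh.1, ⟨t, h, h', rfl⟩, ⟨s, k, k', hts.symm⟩⟩ rfl

/-- the eight versions of a crossing -/
def ver (i : Fin 2) (u v w x : V) (z : ℂ) : Bool × Bool × Bool → Fin 2 × V × V × V × V × ℂ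
  | (false, false, false) => (i, u, v, w, x, z)
  | (false, false, true) => (i, u, v, x, w, z)
  | (false, true, false) => (i, v, u, w, x, z)
  | (false, true, true) => (i, v, u, x, w, z)
  | (true, false, false) => (i, w, x, u, v, z)
  | (true, false, true) => (i, x, w, u, v, z)
  | (true, true, false) => (i, w, x, v, u, z)
  | (true, true, true) => (i, x, w, v, u, z)

theorem ver_mem (hV : Valid G c p γ) (i : Fin 2) (u v w x : V) (z : ℂ)
    (h : (i, u, v, w, x, z) ∈ Crs G c γ) (b : Bool × Bool × Bool) :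
    ver i u v w x z b ∈ Crs G c γ := by
  obtain ⟨h1, h2, h3, h4, h5, h6, ⟨t, ht0, ht1, ht⟩, ⟨s, hs0, hs1, hs⟩⟩ := h
  dsimp only at h1 h2 h3 h4 h5 h6 ht hs
  have r1 : c v u = i := by rw [← hV.1 u v h1]; exact h3
  have r2 : c x w = i := by rw [← hV.1 w x h2]; exact h4
  have e1 : ∃ t : ℝ, 0 < t ∧ t < 1 ∧ γ i v u t = z :=
    ⟨1 - t, by linarith, by linarith, by
      rw [(hV.2.2 i u v h1 h3).2.2.2.2.1 (1 - t) (by linarith) (by linarith), sub_sub_cancel]
      exact ht⟩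
  have e2 : ∃ t : ℝ, 0 < t ∧ t < 1 ∧ γ i x w t = z :=
    ⟨1 - s, by linarith, by linarith, by
      rw [(hV.2.2 i w x h2 h4).2.2.2.2.1 (1 - s) (by linarith) (by linarith), sub_sub_cancel]
      exact hs⟩
  have e3 : ∃ t : ℝ, 0 < t ∧ t < 1 ∧ γ i u v t = z := ⟨t, ht0, ht1, ht⟩
  have e4 : ∃ t : ℝ, 0 < t ∧ t < 1 ∧ γ i w x t = z := ⟨s, hs0, hs1, hs⟩
  rcases b with ⟨_ | _, _ | _, _ | _⟩
  · exact ⟨h1, h2, h3, h4, h5, h6, e3, e4⟩
  · exact ⟨h1, h2.symm, h3, r2, fun h => h6 ⟨h.1, h.2⟩, fun h => h5 ⟨h.1, h.2⟩, e3, e2⟩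
  · exact ⟨h1.symm, h2, r1, h4, fun h => h6 ⟨h.2, h.1⟩, fun h => h5 ⟨h.2, h.1⟩, e1, e4⟩
  · exact ⟨h1.symm, h2.symm, r1, r2, fun h => h5 ⟨h.2, h.1⟩, fun h => h6 ⟨h.2, h.1⟩, e1, e2⟩
  · exact ⟨h2, h1, h4, h3, fun h => h5 ⟨h.1.symm, h.2.symm⟩, fun h => h6 ⟨h.2.symm, h.1.symm⟩, e4, e3⟩
  · exact ⟨h2.symm, h1, r2, h3, fun h => h6 ⟨h.1.symm, h.2.symm⟩, fun h => h5 ⟨h.2.symm, h.1.symm⟩, e2, e3⟩
  · exact ⟨h2, h1.symm, h4, r1, fun h => h6 ⟨h.2.symm, h.1.symm⟩, fun h => h5 ⟨h.1.symm, h.2.symm⟩, e4, e1⟩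
  · exact ⟨h2.symm, h1.symm, r2, r1, fun h => h5 ⟨h.2.symm, h.1.symm⟩, fun h => h6 ⟨h.1.symm, h.2.symm⟩, e2, e1⟩

theorem ver_inj (i : Fin 2) (u v w x : V) (z : ℂ)
    (h : (i, u, v, w, x, z) ∈ Crs G c γ) : Function.Injective (ver i u v w x z) := by
  obtain ⟨h1, h2, h3, h4, h5, h6, -, -⟩ := h
  dsimp only at h1 h2 h5 h6
  have huv := h1.ne
  have hwx := h2.ne
  have huv' := huv.symm
  have hwx' := hwx.symm
  have h5' : ¬ (w = u ∧ x = v) := fun h => h5 ⟨h.1.symm, h.2.symm⟩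
  have h6' : ¬ (x = u ∧ w = v) := fun h => h6 ⟨h.1.symm, h.2.symm⟩
  rintro ⟨_ | _, _ | _, _ | _⟩ ⟨_ | _, _ | _, _ | _⟩ hab <;>
    simp only [ver, Prod.mk.injEq, true_and, and_true] at hab <;>
    first
    | rfl
    | exact (huv hab.1).elim
    | exact (huv' hab.1).elim
    | exact (hwx hab.1).elim
    | exact (hwx' hab.1).elim
    | exact (h5 ⟨hab.1, hab.2.1⟩).elim
    | exact (h5' ⟨hab.1, hab.2.1⟩).elim
    | exact (h6 ⟨hab.1, hab.2.1⟩).elim
    | exact (h6' ⟨hab.1, hab.2.1⟩).elim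
    | exact (h5 ⟨hab.2.1, hab.1⟩).elim
    | exact (h5' ⟨hab.2.1, hab.1⟩).elim
    | exact (h6 ⟨hab.2.1, hab.1⟩).elim
    | exact (h6' ⟨hab.2.1, hab.1⟩).elim

/-- with at most one crossing one of the planes has no crossing -/
theorem free_plane (hV : Valid G c p γ) (hfin : (Crs G c γ).Finite) (h8 : (Crs G c γ).ncard ≤ 8) :
    ∃ i : Fin 2, ∀ x ∈ Crs G c γ, x.1 ≠ i := by
  classical
  by_contra hcon
  push Not at hcon
  obtain ⟨⟨i, u, v, w, x, z⟩, hx, hx0⟩ := hcon 0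
  obtain ⟨y, hy, hy1⟩ := hcon 1
  dsimp only at hx0
  have hinj := ver_inj i u v w x z hx
  have hsub : ((insert y (Finset.univ.image (ver i u v w x z)) : Finset _) : Set _) ⊆
      Crs G c γ := by
    intro a ha
    rw [Finset.mem_coe, Finset.mem_insert, Finset.mem_image] at ha
    rcases ha with rfl | ⟨b, -, rfl⟩
    · exact hy
    · exact ver_mem hV i u v w x z hx b
  have hynot : y ∉ Finset.univ.image (ver i u v w x z) := by
    intro hmem
    rw [Finset.mem_image] at hmem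
    obtain ⟨b, -, rfl⟩ := hmem
    have : (ver i u v w x z b).1 = i := by
      rcases b with ⟨_ | _, _ | _, _ | _⟩ <;> rfl
    rw [this, hx0] at hy1
    exact absurd hy1 (by decide)
  have hle := Set.ncard_le_ncard hsub hfin
  rw [Set.ncard_coe_finset, Finset.card_insert_of_notMem hynot,
    Finset.card_image_of_injective _ hinj] at hle
  have : (Finset.univ : Finset (Bool × Bool × Bool)).card = 8 := by decide
  omega

end general

/-! ### a biplanar drawing of `K_9` with one crossing -/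

/-- the edges in the second plane -/
def g1 : List (Fin 9 × Fin 9) :=
  [(4, 6), (0, 8), (3, 7), (3, 6), (6, 8), (1, 5), (5, 8), (3, 5), (2, 6), (2, 4), (5, 6), (2, 7),
    (1, 3), (2, 5), (7, 8)]

/-- the partition of the edges -/
def c0 (u v : Fin 9) : Fin 2 := if (u, v) ∈ g1 ∨ (v, u) ∈ g1 then 1 else 0

/-- first coordinates -/
def xz : Fin 2 → Fin 9 → ℤ :=
  ![![0, 36, 0, 6, 14, 15, 24, 26, 10], ![10, 16, 22, 14, 21, 15, 13, 19, 12]]

/-- second coordinates -/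
def yz : Fin 2 → Fin 9 → ℤ :=
  ![![0, 0, 36, 27, 18, 12, 5, 7, 25], ![20, 8, 6, 9, 6, 7, 0, 15, 7]]

/-- the positions of the vertices -/
noncomputable def P0 (i : Fin 2) (v : Fin 9) : ℂ := ⟨(xz i v : ℝ), (yz i v : ℝ)⟩

/-- orientation -/
def oz (i : Fin 2) (a b c : Fin 9) : ℤ :=
  (xz i b - xz i a) * (yz i c - yz i a) - (yz i b - yz i a) * (xz i c - xz i a)

theorem ori_oz (i : Fin 2) (a b c : Fin 9) : ori (P0 i a) (P0 i b) (P0 i c) = (oz i a b c : ℝ) := by
  simp only [ori, P0, oz]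
  push_cast
  rfl

theorem gp : ∀ (i : Fin 2) (a b c : Fin 9), a ≠ b → a ≠ c → b ≠ c → oz i a b c ≠ 0 := by
  decide +kernel

theorem gpr (i : Fin 2) (a b c : Fin 9) (h1 : a ≠ b) (h2 : a ≠ c) (h3 : b ≠ c) :
    ori (P0 i a) (P0 i b) (P0 i c) ≠ 0 := by
  rw [ori_oz]
  exact_mod_cast gp i a b c h1 h2 h3

theorem xy_inj : ∀ (i : Fin 2) (u v : Fin 9), xz i u = xz i v → yz i u = yz i v → u = v := by
  decide +kernel

theorem P0_inj (i : Fin 2) : Function.Injective (P0 i) := by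
  intro u v h
  have h1 := congrArg Complex.re h
  have h2 := congrArg Complex.im h
  simp only [P0] at h1 h2
  exact xy_inj i u v (by exact_mod_cast h1) (by exact_mod_cast h2)

/-- two crossing edges of the drawing -/
def cros (i : Fin 2) (u v a b : Fin 9) : Bool :=
  u != v && a != b && u != a && u != b && v != a && v != b && c0 u v == i && c0 a b == i &&
    decide (oz i u v a * oz i u v b < 0) && decide (oz i a b u * oz i a b v < 0)

/-- the crossing edges -/
def pair (u v a b : Fin 9) : Bool :=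
  (((u == 3 && v == 6) || (u == 6 && v == 3)) && ((a == 5 && b == 8) || (a == 8 && b == 5)))

theorem cross0b : ∀ (i : Fin 2) (u v a b : Fin 9), cros i u v a b = true →
    (i == 1 && (pair u v a b || pair a b u v)) = true := by
  decide +kernel

theorem cross0 (i : Fin 2) (u v a b : Fin 9) (h1 : u ≠ v) (h2 : a ≠ b) (h3 : u ≠ a) (h4 : u ≠ b)
    (h5 : v ≠ a) (h6 : v ≠ b) (h7 : c0 u v = i) (h8 : c0 a b = i)
    (h9 : oz i u v a * oz i u v b < 0) (h10 : oz i a b u * oz i a b v < 0) :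
    i = 1 ∧ ((((u = 3 ∧ v = 6) ∨ (u = 6 ∧ v = 3)) ∧ ((a = 5 ∧ b = 8) ∨ (a = 8 ∧ b = 5))) ∨
      (((a = 3 ∧ b = 6) ∨ (a = 6 ∧ b = 3)) ∧ ((u = 5 ∧ v = 8) ∨ (u = 8 ∧ v = 5)))) := by
  have h := cross0b i u v a b (by simp [cros, h1, h2, h3, h4, h5, h6, h7, h8, h9, h10])
  simpa [pair] using h

/-- the arcs -/
noncomputable def γ0 (i : Fin 2) (u v : Fin 9) : ℝ → ℂ := seg (P0 i u) (P0 i v)

theorem valid0 : Valid (⊤ : SimpleGraph (Fin 9)) c0 P0 γ0 := by
  refine ⟨?_, P0_inj, ?_⟩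
  · intro u v _
    unfold c0
    simp only [or_comm]
  · intro i u v huv _
    have huv' : u ≠ v := huv
    have hP : P0 i u ≠ P0 i v := fun h => huv' (P0_inj i h)
    refine ⟨(seg_cont _ _).continuousOn, fun s _ t _ h => seg_inj hP h, seg_zero _ _, seg_one _ _,
      fun t _ _ => seg_comm _ _ t, ?_⟩
    intro t ht0 ht1 w hw
    by_cases h1 : w = u
    · have h2 : seg (P0 i u) (P0 i v) t = seg (P0 i u) (P0 i v) 0 := by
        rw [seg_zero, ← h1]
        rw [← h1] at hw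
        exact hw
      exact ht0.ne' (seg_inj hP h2)
    by_cases h3 : w = v
    · have h2 : seg (P0 i u) (P0 i v) t = seg (P0 i u) (P0 i v) 1 := by
        rw [seg_one, ← h3]
        rw [← h3] at hw
        exact hw
      exact ht1.ne (seg_inj hP h2)
    · have h4 : seg (P0 i u) (P0 i v) t = seg (P0 i w) (P0 i w) 0 := by
        rw [seg_zero]; exact hw
      have h5 := ori_seg h4
      apply gpr i u v w huv' (Ne.symm h1) (Ne.symm h3)
      linarith

theorem neg_of_comb {A B s : ℝ} (hs0 : 0 < s) (hs1 : s < 1) (hB : B ≠ 0)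
    (h : (1 - s) * A + s * B = 0) : A * B < 0 := by
  have h1 : (1 - s) * (A * B) = -(s * B ^ 2) := by linear_combination B * h
  have h2 : 0 < s * B ^ 2 := by positivity
  by_contra hcon
  push Not at hcon
  have h3 : 0 ≤ (1 - s) * (A * B) := mul_nonneg (by linarith) hcon
  linarith

/-- the crossing point -/
noncomputable def z0 : ℂ := ⟨124 / 9, 7⟩

theorem z_eq {z : ℂ} {s t : ℝ} (h1 : seg (P0 1 3) (P0 1 6) t = z) (h2 : seg (P0 1 5) (P0 1 8) s = z) :
    z = z0 := by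
  have a1 := congrArg Complex.re h1
  have a2 := congrArg Complex.im h1
  have a3 := congrArg Complex.re h2
  have a4 := congrArg Complex.im h2
  have x3 : xz 1 3 = 14 := rfl
  have x6 : xz 1 6 = 13 := rfl
  have x5 : xz 1 5 = 15 := rfl
  have x8 : xz 1 8 = 12 := rfl
  have y3 : yz 1 3 = 9 := rfl
  have y6 : yz 1 6 = 0 := rfl
  have y5 : yz 1 5 = 7 := rfl
  have y8 : yz 1 8 = 7 := rfl
  simp only [seg, P0, x3, x6, x5, x8, y3, y6, y5, y8] at a1 a2 a3 a4
  push_cast at a1 a2 a3 a4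
  unfold z0
  apply Complex.ext
  · dsimp only
    linarith
  · dsimp only
    linarith

theorem crs_sub : Crs (⊤ : SimpleGraph (Fin 9)) c0 γ0 ⊆
    ((Finset.univ.image (ver (V := Fin 9) 1 3 6 5 8 z0) : Finset (Fin 2 × Fin 9 × Fin 9 × Fin 9 × Fin 9 × ℂ)) : Set (Fin 2 × Fin 9 × Fin 9 × Fin 9 × Fin 9 × ℂ)) := by
  rintro ⟨i, u, v, a, b, z⟩ ⟨h1, h2, h3, h4, h5, h6, ⟨t, ht0, ht1, ht⟩, ⟨s, hs0, hs1, hs⟩⟩
  dsimp only at h1 h2 h3 h4 h5 h6 ht hs
  have huv : u ≠ v := h1
  have hab : a ≠ b := h2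
  have e1 : seg (P0 i u) (P0 i v) t = seg (P0 i a) (P0 i b) s := ht.trans hs.symm
  have o1 := ori_seg e1
  have o2 := ori_seg e1.symm
  have hua : u ≠ a := by
    rintro rfl
    have hvb : v ≠ b := fun h => h5 ⟨rfl, h⟩
    rw [ori_self₁, mul_zero, zero_add] at o1
    rcases mul_eq_zero.1 o1 with h | h
    · exact hs0.ne' h
    · exact gpr i u v b huv hab hvb h
  have hub : u ≠ b := by
    rintro rfl
    have hva : v ≠ a := fun h => h6 ⟨rfl, h⟩
    rw [ori_self₁, mul_zero, add_zero] at o1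
    rcases mul_eq_zero.1 o1 with h | h
    · linarith
    · exact gpr i u v a huv hab.symm hva h
  have hva : v ≠ a := by
    rintro rfl
    rw [ori_self₂, mul_zero, zero_add] at o1
    rcases mul_eq_zero.1 o1 with h | h
    · exact hs0.ne' h
    · exact gpr i u v b huv hub hab h
  have hvb : v ≠ b := by
    rintro rfl
    rw [ori_self₂, mul_zero, add_zero] at o1
    rcases mul_eq_zero.1 o1 with h | h
    · linarith
    · exact gpr i u v a huv hua hab.symm h
  have n1 : oz i u v a * oz i u v b < 0 := by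
    have := neg_of_comb hs0 hs1 (gpr i u v b huv hub hvb) o1
    rw [ori_oz, ori_oz] at this
    exact_mod_cast this
  have n2 : oz i a b u * oz i a b v < 0 := by
    have := neg_of_comb ht0 ht1 (gpr i a b v hab hva.symm hvb.symm) o2
    rw [ori_oz, ori_oz] at this
    exact_mod_cast this
  obtain ⟨hi, hc⟩ := cross0 i u v a b huv hab hua hub hva hvb h3 h4 n1 n2
  subst hi
  rw [Finset.coe_image]
  have flip : ∀ x y : Fin 9, ∀ r : ℝ, seg (P0 1 x) (P0 1 y) r = z →
      seg (P0 1 y) (P0 1 x) (1 - r) = z := by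
    intro x y r h
    rw [seg_comm, sub_sub_cancel]
    exact h
  change seg (P0 1 u) (P0 1 v) t = z at ht
  change seg (P0 1 a) (P0 1 b) s = z at hs
  rcases hc with ⟨⟨rfl, rfl⟩ | ⟨rfl, rfl⟩, ⟨rfl, rfl⟩ | ⟨rfl, rfl⟩⟩ |
    ⟨⟨rfl, rfl⟩ | ⟨rfl, rfl⟩, ⟨rfl, rfl⟩ | ⟨rfl, rfl⟩⟩
  · obtain rfl := z_eq ht hs
    exact ⟨(false, false, false), by simp, rfl⟩
  · obtain rfl := z_eq ht (flip _ _ _ hs)
    exact ⟨(false, false, true), by simp, rfl⟩
  · obtain rfl := z_eq (flip _ _ _ ht) hs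
    exact ⟨(false, true, false), by simp, rfl⟩
  · obtain rfl := z_eq (flip _ _ _ ht) (flip _ _ _ hs)
    exact ⟨(false, true, true), by simp, rfl⟩
  · obtain rfl := z_eq hs ht
    exact ⟨(true, false, false), by simp, rfl⟩
  · obtain rfl := z_eq hs (flip _ _ _ ht)
    exact ⟨(true, false, true), by simp, rfl⟩
  · obtain rfl := z_eq (flip _ _ _ hs) ht
    exact ⟨(true, true, false), by simp, rfl⟩
  · obtain rfl := z_eq (flip _ _ _ hs) (flip _ _ _ ht)
    exact ⟨(true, true, true), by simp, rfl⟩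

theorem crs_fin : (Crs (⊤ : SimpleGraph (Fin 9)) c0 γ0).Finite :=
  (Finset.finite_toSet _).subset crs_sub

theorem crs_card : (Crs (⊤ : SimpleGraph (Fin 9)) c0 γ0).ncard ≤ 8 := by
  classical
  refine (Set.ncard_le_ncard crs_sub (Finset.finite_toSet _)).trans ?_
  rw [Set.ncard_coe_finset]
  exact Finset.card_image_le.trans (by decide)

/-! ### the theorem -/

/-- isomorphic planes: no plane can be drawn without crossings -/
theorem no_iso {c : Fin 9 → Fin 9 → Fin 2} {p : Fin 2 → Fin 9 → ℂ}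
    {γ : Fin 2 → Fin 9 → Fin 9 → ℝ → ℂ} (hV : Valid ⊤ c p γ) (i j : Fin 2) (hij : i ≠ j)
    (φ : Pl ⊤ c i ≃g Pl ⊤ c j) (hi : ∀ x ∈ Crs ⊤ c γ, x.1 ≠ i) : False := by
  apply no_k5 hV i hi
  apply k5_of_antimorphism _ φ.toEquiv
  intro u v huv
  have h1 : (Pl ⊤ c j).Adj (φ u) (φ v) ↔ (Pl ⊤ c i).Adj u v := φ.map_rel_iff
  have h2 : φ u ≠ φ v := fun h => huv (φ.injective h)
  change (Pl ⊤ c i).Adj (φ u) (φ v) ↔ ¬ (Pl ⊤ c i).Adj u v
  rw [← h1, pl_adj hV, pl_adj hV]
  constructor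
  · rintro ⟨-, h3⟩ ⟨-, h4⟩
    exact hij (h3.symm.trans h4)
  · intro h
    refine ⟨h2, ?_⟩
    have h3 : c (φ u) (φ v) ≠ j := fun h3 => h ⟨h2, h3⟩
    have : ∀ i j k : Fin 2, i ≠ j → k ≠ j → k = i := by decide
    exact this i j _ hij h3

theorem even9 : Even (Set.ncard (⊤ : SimpleGraph (Fin 9)).edgeSet) := by
  classical
  rw [Set.ncard_eq_toFinset_card']
  have : (⊤ : SimpleGraph (Fin 9)).edgeSet.toFinset.card = 36 := by
    rw [← SimpleGraph.edgeFinset]
    rw [SimpleGraph.card_edgeFinset_top_eq_card_choose_two]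
    rfl
  rw [this]
  decide

end Pool.Agent.Y899.BiSC
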